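import Pool.Agent.K3h80.CR.Inj

/-!
# Kernel dimensions of matrices supported in a few cosets of a subgroup

Let `A` be a matrix over the complex group ring of an arbitrary group `G` and let `H` be a subgroup.
Split `A` into its parts `A_C` in the right cosets `C = H z`. If `k` cosets occur, the von Neumann
rank of `A` is at least `1 / k` times the joint rank of all the parts. For a locally indicable
subgroup `H`, for example a free or torsion-free abelian one, it follows that the kernel of every
nonzero `m × l` matrix has dimension at most `m - 1 / k`, however many terms the entries have.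

Method: the operator `P` of all the parts is split by the coordinate projections to the sets
`{u | y_i u y_j⁻¹ ∈ H}`; the regularised projections `P (P† P + ε)⁻¹ P†` to its range, tested on the
basis vectors, are compared with the projection to the range of the operator of `A`.
-/

set_option autoImplicit false

universe u

namespace Pool.Agent.Results.MP_54e5d7_al.CosetRank

open Pool.Agent

/-- The von Neumann dimension of a closed subspace `V` of `l2(G)^m` that is invariant under left
translations by `G`: the sum over `i` of one minus the square of the distance from the basis vector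
at `(i, 1)` to `V`, that is, the sum of the squared lengths of the projections of these vectors
to `V`. -/
noncomputable def dim {G : Type u} [Group G] {m : ℕ}
    (V : Set (lp (fun _ : Fin m × G => ℂ) 2)) : ℝ := by
  classical
  exact ∑ i : Fin m, (1 - Metric.infDist
    (lp.single (E := fun _ : Fin m × G => ℂ) 2 (i, (1 : G)) (1 : ℂ)) V ^ 2)

/-- The kernel of right multiplication by the matrix `A` over the complex group ring on row vectors
of length `m` over `l2(G)`: all square-summable `x` with `x A = 0`. -/
def kernel {G : Type u} [Group G] {m l : ℕ} (A : Matrix (Fin m) (Fin l) (G →₀ ℂ)) :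
    Set (lp (fun _ : Fin m × G => ℂ) 2) :=
  {x | ∀ (j : Fin l) (g : G),
    ∑ k : Fin m, ∑ h ∈ (A k j).support, x (k, g * h⁻¹) * A k j h = 0}

open Classical in
/-- The joint kernel of the parts of `A` in the right cosets of `H`: all square-summable `x` with
`x A_C = 0` for every right coset `C = H z`, where `A_C` is the matrix whose entries are the parts of
the entries of `A` that are supported in `C` (`h` lies in `H z` iff `h z⁻¹` lies in `H`). -/
def partsKernel {G : Type u} [Group G] (H : Subgroup G) {m l : ℕ}
    (A : Matrix (Fin m) (Fin l) (G →₀ ℂ)) : Set (lp (fun _ : Fin m × G => ℂ) 2) :=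
  {x | ∀ (z : G) (j : Fin l) (g : G), ∑ k : Fin m,
    ∑ h ∈ (A k j).support.filter (fun h => h * z⁻¹ ∈ H), x (k, g * h⁻¹) * A k j h = 0}

/-- A group is locally indicable if every nontrivial finitely generated subgroup has a nontrivial
homomorphism to the integers. -/
def LocallyIndicable (Γ : Type u) [Group Γ] : Prop :=
  ∀ K : Subgroup Γ, K.FG → K ≠ ⊥ → ∃ φ : K →* Multiplicative ℤ, ∃ k, φ k ≠ 1

/-- **Ranks of matrices supported in a few cosets.** Let `G` be any group, `H` a subgroup, `Y` a
finite subset of `G` and `A` an `m × l` matrix over the complex group ring whose entries are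
supported in the union of the right cosets `H y`, `y ∈ Y`. Then
(1) `m - dim (partsKernel H A) ≤ |Y| (m - dim (kernel A))`: the rank of `A` is at least the joint
rank of the parts of `A` in the cosets, divided by `|Y|`;
(2) if `H` is locally indicable and `A ≠ 0`, then `dim (kernel A) ≤ m - 1 / |Y|`. -/
theorem result {G : Type u} [Group G] (H : Subgroup G) (Y : Finset G) {m l : ℕ}
    (A : Matrix (Fin m) (Fin l) (G →₀ ℂ))
    (hY : ∀ i j, ∀ h ∈ (A i j).support, ∃ y ∈ Y, h * y⁻¹ ∈ H) :
    (m - dim (partsKernel H A) ≤ Y.card * (m - dim (kernel A))) ∧
    (LocallyIndicable H → A ≠ 0 → dim (kernel A) ≤ m - 1 / Y.card) := by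
  classical
  have e1 : ∀ V : Set (lp (fun _ : Fin m × G => ℂ) 2), dim V = K3h80.CR.dimS V := by
    intro V
    unfold dim K3h80.CR.dimS
    congr!
  have e2 : partsKernel H A = K3h80.CR.pset H A := by
    ext x
    refine forall_congr' fun z => forall_congr' fun j => forall_congr' fun g => ?_
    have : ∀ k : Fin m,
        ∑ h ∈ (A k j).support.filter (fun h => h * z⁻¹ ∈ H), x (k, g * h⁻¹) * A k j h
        = ∑ h ∈ (A k j).support,
          Set.indicator {h : G | h * z⁻¹ ∈ H} (fun h => x (k, g * h⁻¹) * A k j h) h := by
      intro k
      rw [Finset.sum_filter]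
      refine Finset.sum_congr rfl fun h _ => ?_
      rw [Set.indicator_apply]
      rfl
    rw [Finset.sum_congr rfl fun k _ => this k]
  have e3 : kernel A = W649.ZL.kernM A := rfl
  rw [e1, e1, e2, e3]
  refine ⟨?_, fun hH hA => ?_⟩
  · have h := K3h80.CR.pset_rank H Y A hY
    rw [Fintype.card_fin] at h
    exact h
  · obtain ⟨i, j, hij⟩ : ∃ i j, A i j ≠ 0 := by
      by_contra hcon
      push Not at hcon
      exact hA (by ext1 i j; exact hcon i j)
    have h := K3h80.CR.kerDim_le H hH Y A hY i j hij
    rw [Fintype.card_fin] at h
    exact h

end Pool.Agent.Results.MP_54e5d7_al.CosetRank
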