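import Pool.Agent.K3h37.UD.One

/-!
# Irrational kernel dimensions over the complex group ring and density over the integral group ring

Let `R` be a subring of `ℂ`, for example `ℤ`, let `G` be a group and let `F` be the free group of
countable rank. If the kernel dimensions of the matrices over `R[G * F]` are not dense in `[0, ∞)`, then
the kernel dimensions of all matrices over `ℂ[G * F]` are rational numbers, with one common denominator
for all matrices with coefficients in `R[S]`, for each finite set `S` of complex numbers. In particular,
one irrational kernel dimension of a matrix over `ℂ[G]` gives a dense set of kernel dimensions for the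
matrices over `ℤ[G * F]`. The same holds for the class of all groups for which `d` is the least common
multiple of the orders of the finite subgroups.

Outline. By `UniformDenominators` the dimensions over `R` have a common denominator `D` unless they are
dense. (1) There is a maximal coefficient ring `K` containing `R` with this common denominator. It
contains every complex number `c` such that `D` times the kernel dimension of `P + c Q` is an integer for
all matrices `P, Q` over `ℤ[G * F]`, and more generally over `K[G * F]`, so it is a field. (2) If the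
dimension for `P + z Q` has another denominator, then `z` is exceptional: for a suitable cut with generic
matrices over the free factor, the systems satisfied by `(x, z x, z² x, ...)` have a slope filtration in
the space of coefficient vectors whose pieces have a length bounded by the number of steps (semicontinuity
and the transfer of helper656 and helper80). The coordinates of a piece, with respect to a minimal
separating set of coordinates, belong to `K`, because a piece of the filtration has dimension with
denominator `D` against ALL systems over `K` (here a second cut is used). Hence `z` satisfies a polynomial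
equation over `K`: all complex numbers are algebraic over `K`. (3) For a finite extension `L = K(z)` of
degree `e`, a matrix over `L[G * F]` is replaced by the block matrix of the regular representation; its
kernel contains the original kernel as the eigenspace of an operator which commutes with the system, and
the slope filtration gives the denominator `D m`, `1 ≤ m ≤ e`. -/

set_option autoImplicit false

namespace Pool.Agent.Results.MP_54e5d7_al.DenseOrRational

/-- The kernel of right multiplication by the matrix `A` over the complex group ring on row vectors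
of length `m` over `ℓ²(G)`: all square-summable `x` with `x A = 0`. -/
def kernel {G : Type} [Group G] {m n : ℕ} (A : Matrix (Fin m) (Fin n) (G →₀ ℂ)) :
    Set (lp (fun _ : Fin m × G => ℂ) 2) :=
  {x | ∀ (j : Fin n) (g : G),
    ∑ i : Fin m, (A i j).sum (fun h c => x (i, g * h⁻¹) * c) = 0}

open Classical in
/-- The von Neumann dimension of this kernel: the sum over `i` of one minus the squared distance
from the basis vector at `(i, 1)` to the kernel, that is, the trace of the projection onto the
kernel. -/
noncomputable def kerDim {G : Type} [Group G] {m n : ℕ} (A : Matrix (Fin m) (Fin n) (G →₀ ℂ)) : ℝ :=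
  ∑ i : Fin m, (1 - (Metric.infDist
    (lp.single 2 (i, (1 : G)) (1 : ℂ) : lp (fun _ : Fin m × G => ℂ) 2) (kernel A)) ^ 2)

/-- The orders of the finite subgroups of `G` are bounded and `d` is their least common
multiple. -/
def IsLcm (G : Type) [Group G] (d : ℕ) : Prop :=
  (∃ N : ℕ, ∀ H : Subgroup G, Finite H → Nat.card H ≤ N) ∧
    (∀ H : Subgroup G, Finite H → Nat.card H ∣ d) ∧
    ∀ e : ℕ, (∀ H : Subgroup G, Finite H → Nat.card H ∣ e) → d ∣ e

/-- The kernel dimensions of all the matrices over `R[G]`. -/
def Dims (R : Subring ℂ) (G : Type) [Group G] : Set ℝ :=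
  {r | ∃ (m n : ℕ) (A : Matrix (Fin m) (Fin n) (G →₀ ℂ)), (∀ i j g, A i j g ∈ R) ∧ kerDim A = r}

/-- Every interval in `[0, ∞)` contains a point of `V`. -/
def DenseSet (V : Set ℝ) : Prop := ∀ a b : ℝ, 0 ≤ a → a < b → ∃ v ∈ V, a < v ∧ v < b

/-- The nonnegative multiples of `1 / D`. -/
def Multiples (D : ℕ) : Set ℝ := {r | ∃ k : ℕ, r = (k : ℝ) / D}


theorem dims_eq (R : Subring ℂ) (G : Type) [Group G] : Dims R G = Pool.Agent.K3h37.UD.VG R G := by
  have hk : ∀ (m n : ℕ) (A : Matrix (Fin m) (Fin n) (G →₀ ℂ)),
      kerDim A = Pool.Agent.W656.VA.kerDim A := fun _ _ _ => rfl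
  ext r
  constructor
  · rintro ⟨m, n, A, hA, rfl⟩
    rw [hk]
    exact Pool.Agent.W656.VA.val_kerDim A hA
  · intro h
    obtain ⟨m, n, A, hA, hr⟩ := Pool.Agent.W656.VA.exists_kerDim (show
      Pool.Agent.W656.VA.Val R G r from h)
    exact ⟨m, n, A, hA, by rw [hk]; exact hr⟩

/-- **Dense over `R` or rational over `ℂ`.** Let `R` be a subring of `ℂ`. Kernel dimension means the von
Neumann dimension of the kernel of a matrix over a group ring.

1. Let `G` be a group and let `F` be the free group with generators indexed by `ℕ`. If the kernel
   dimensions over `R[G * F]` are not dense in `[0, ∞)`, then all kernel dimensions over `ℂ[G * F]` are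
   rational, and for every finite set `S` of complex numbers the kernel dimensions over `R[S][G * F]` are
   exactly the nonnegative multiples of `1 / D`, for some `D ≥ 1`, which is divisible by the orders of the
   finite subgroups of `G`.
2. In particular: if some kernel dimension over `ℂ[G]` is irrational, then the kernel dimensions over
   `ℤ[G * F]` are dense in `[0, ∞)`.
3. Let `d ≥ 1` and suppose that there is no group `G` with the least common multiple `d` for which the
   kernel dimensions over `R[G]` are dense. Then all kernel dimensions over `ℂ[G]`, for all these groups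
   `G`, are rational, and for every finite set `S` of complex numbers the kernel dimensions over
   `R[S][G]` of all these groups together are exactly the nonnegative multiples of `1 / D`, for some
   `D ≥ 1` which is divisible by `d`. -/
theorem result (R : Subring ℂ) :
    (∀ (G : Type) [Group G], ¬ DenseSet (Dims R (Monoid.Coprod G (FreeGroup ℕ))) →
      (∀ v ∈ Dims ⊤ (Monoid.Coprod G (FreeGroup ℕ)), ∃ q : ℚ, v = q) ∧
      ∀ S : Finset ℂ, ∃ D : ℕ, 0 < D ∧ (∀ H : Subgroup G, Finite H → Nat.card H ∣ D) ∧
        Dims (Subring.closure ((R : Set ℂ) ∪ (S : Set ℂ))) (Monoid.Coprod G (FreeGroup ℕ)) =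
          Multiples D) ∧
    (∀ (G : Type) [Group G], (∃ v ∈ Dims ⊤ G, ∀ q : ℚ, v ≠ q) →
      DenseSet (Dims (Int.castRingHom ℂ).range (Monoid.Coprod G (FreeGroup ℕ)))) ∧
    (∀ d : ℕ, 0 < d → (∀ (G : Type) [Group G], IsLcm G d → ¬ DenseSet (Dims R G)) →
      (∀ (G : Type) [Group G], IsLcm G d → ∀ v ∈ Dims ⊤ G, ∃ q : ℚ, v = q) ∧
      ∀ S : Finset ℂ, ∃ D : ℕ, 0 < D ∧ d ∣ D ∧
        {v : ℝ | ∃ (G : Type) (_ : Group G), IsLcm G d ∧
          v ∈ Dims (Subring.closure ((R : Set ℂ) ∪ (S : Set ℂ))) G} = Multiples D) := by
  have h1 : ∀ (R : Subring ℂ) (G : Type) [Group G],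
      ¬ DenseSet (Dims R (Monoid.Coprod G (FreeGroup ℕ))) →
      (∀ v ∈ Dims ⊤ (Monoid.Coprod G (FreeGroup ℕ)), ∃ q : ℚ, v = q) ∧
      ∀ S : Finset ℂ, ∃ D : ℕ, 0 < D ∧ (∀ H : Subgroup G, Finite H → Nat.card H ∣ D) ∧
        Dims (Subring.closure ((R : Set ℂ) ∪ (S : Set ℂ))) (Monoid.Coprod G (FreeGroup ℕ)) =
          Multiples D := by
    intro R G _ h
    simp only [dims_eq] at h ⊢
    obtain ⟨h1, h2⟩ := Pool.Agent.K3h37.UD.one_main h
    refine ⟨h1, fun S => ?_⟩
    obtain ⟨D, hD, hV⟩ := h2 S
    exact ⟨D, hD, fun H hH => Pool.Agent.K3h37.UD.card_dvd hD hV H hH, hV⟩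
  refine ⟨h1 R, ?_, ?_⟩
  · rintro G _ ⟨v, hv, hq⟩
    by_contra hc
    obtain ⟨q, hq'⟩ := (h1 _ G hc).1 v (by
      rw [dims_eq] at hv ⊢
      exact Pool.Agent.K3h37.UD.val_inl hv)
    exact hq q hq'
  · intro d hd h
    simp only [dims_eq] at h ⊢
    exact Pool.Agent.K3h37.UD.class_main hd h

end Pool.Agent.Results.MP_54e5d7_al.DenseOrRational
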