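import Pool.Agent.K3h41.MG.Atiyah

/-!
# The Atiyah conjecture passes to generic limits of marked groups

The marked groups with generators indexed by a countable type `κ`, that is the normal subgroups `N`
of the free group on `κ`, form a compact metrizable space. For a matrix `A` over the group ring
`ℂ[F_κ]` the von Neumann dimension of the kernel of the image of `A` over `ℂ[F_κ / N]` is an upper
semicontinuous function of `N`. Hence the marked groups with kernel dimensions in `(1/d) ℤ` form a
`G_δ` set, and so the Atiyah conjecture for the groups of a set `X` of marked groups implies the
conjecture for comeagrely many groups of its closure.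
-/

namespace Pool.Agent.Results.MP_54e5d7_al.GenericLimits

open Pool.Agent.K3h41.MG

/-- Let `R` be a countable subring of `ℂ` and let `X` be a set of marked groups `G`, for which `d` is
the least common multiple of the (bounded) orders of the finite subgroups and which satisfy the
Atiyah conjecture with coefficients in `R`. Then the same holds for comeagrely many marked groups
in the closure of `X`, which is a Baire space. -/
theorem result (R : Subring ℂ) [Countable R] (κ : Type) [Countable κ] (d : ℕ) (X : Set (Marked κ))
    (hX : ∀ N ∈ X, Atiyah R N.grp d) :
    BaireSpace (closure X) ∧ {N : closure X | Atiyah R N.1.grp d} ∈ residual (closure X) :=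
  ⟨Marked.baire X, residual_atiyah R d X hX⟩

end Pool.Agent.Results.MP_54e5d7_al.GenericLimits
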