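import Pool.Agent.K3h37.UD.Main

/-!
# Kernel dimensions of groups with bounded torsion: uniform denominators or a dense set

Let `R` be a subring of `ℂ`. For one group `G`, the kernel dimensions of the matrices over `R[G * F]`,
`F` free of countable rank, form a dense subset of `[0, ∞)` or are the nonnegative multiples of `1 / D`
for one integer `D`. For a fixed integer `d`, either there is one group for which `d` is the least
common multiple of the orders of the finite subgroups and for which the kernel dimensions are dense,
or the kernel dimensions of all these groups together are the nonnegative multiples of `1 / D`, for one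
integer `D` divisible by `d`. In both situations `D = d`, which is the Atiyah conjecture, as soon as the
dimensions avoid an interval of length more than `1 / (2 d)`, which may depend on the group.

Outline. The set `V` of the dimensions in question contains `1` and is closed under addition and under
`v ↦ v - j`, for integers `0 ≤ j < v` (the kernel of a matrix is cut with a generic matrix over the free
factor, helper656 and helper80). An element `v` of `V` which is not rational, or a sequence with
unbounded denominators, gives arbitrarily small positive elements of `V` by Dirichlet's theorem, so `V`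
is dense; otherwise `V` consists of the nonnegative elements of a discrete group of reals. Groups which
realize countably many of the dimensions are combined in a free product; by the lemma `key` of
`R701.FreeProd` its finite subgroups are conjugate to subgroups of the factors. -/

set_option autoImplicit false

namespace Pool.Agent.Results.MP_54e5d7_al.UniformDenominators

/-- The kernel of right multiplication by the matrix `A` over the complex group ring on row vectors
of length `m` over `ℓ²(G)`: all square-summable `x` with `x A = 0`. -/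
def kernel {G : Type} [Group G] {m n : ℕ} (A : Matrix (Fin m) (Fin n) (G →₀ ℂ)) :
    Set (lp (fun _ : Fin m × G => ℂ) 2) :=
  {x | ∀ (j : Fin n) (g : G),
    ∑ i : Fin m, (A i j).sum (fun h c => x (i, g * h⁻¹) * c) = 0}

open Classical in
/-- The von Neumann dimension of this kernel: the sum over `i` of one minus the squared distance
from the basis vector at `(i, 1)` to the kernel, that is, the trace of the projection onto the
kernel. -/
noncomputable def kerDim {G : Type} [Group G] {m n : ℕ} (A : Matrix (Fin m) (Fin n) (G →₀ ℂ)) : ℝ :=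
  ∑ i : Fin m, (1 - (Metric.infDist
    (lp.single 2 (i, (1 : G)) (1 : ℂ) : lp (fun _ : Fin m × G => ℂ) 2) (kernel A)) ^ 2)

/-- The orders of the finite subgroups of `G` are bounded and `d` is their least common
multiple. -/
def IsLcm (G : Type) [Group G] (d : ℕ) : Prop :=
  (∃ N : ℕ, ∀ H : Subgroup G, Finite H → Nat.card H ≤ N) ∧
    (∀ H : Subgroup G, Finite H → Nat.card H ∣ d) ∧
    ∀ e : ℕ, (∀ H : Subgroup G, Finite H → Nat.card H ∣ e) → d ∣ e

/-- The kernel dimensions of all the matrices over `R[G]`. -/
def Dims (R : Subring ℂ) (G : Type) [Group G] : Set ℝ :=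
  {r | ∃ (m n : ℕ) (A : Matrix (Fin m) (Fin n) (G →₀ ℂ)), (∀ i j g, A i j g ∈ R) ∧ kerDim A = r}

/-- Every interval in `[0, ∞)` contains a point of `V`. -/
def DenseSet (V : Set ℝ) : Prop := ∀ a b : ℝ, 0 ≤ a → a < b → ∃ v ∈ V, a < v ∧ v < b

/-- The nonnegative multiples of `1 / D`. -/
def Multiples (D : ℕ) : Set ℝ := {r | ∃ k : ℕ, r = (k : ℝ) / D}


theorem dims_eq (R : Subring ℂ) (G : Type) [Group G] : Dims R G = Pool.Agent.K3h37.UD.VG R G := by
  have hk : ∀ (m n : ℕ) (A : Matrix (Fin m) (Fin n) (G →₀ ℂ)),
      kerDim A = Pool.Agent.W656.VA.kerDim A := fun _ _ _ => rfl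
  ext r
  constructor
  · rintro ⟨m, n, A, hA, rfl⟩
    rw [hk]
    exact Pool.Agent.W656.VA.val_kerDim A hA
  · intro h
    obtain ⟨m, n, A, hA, hr⟩ := Pool.Agent.W656.VA.exists_kerDim (show
      Pool.Agent.W656.VA.Val R G r from h)
    exact ⟨m, n, A, hA, by rw [hk]; exact hr⟩

/-- **Uniform denominators or dense kernel dimensions.** Let `R` be a subring of `ℂ`.

1. For every group `G`, the kernel dimensions over `R[G * F]`, `F` the free group with generators
   indexed by `ℕ`, are dense in `[0, ∞)`, or they are exactly the nonnegative multiples of `1 / D` for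
   some `D ≥ 1`, and then `D` is divisible by the orders of all finite subgroups of `G`.
2. Let `d` be the least common multiple of the orders of the finite subgroups of `G`. The following
   are equivalent: `d v` is an integer for all kernel dimensions `v` over `R[G * F]`; none of them is
   in `(0, 1 / d)`; they avoid some interval in `[0, ∞)` of length greater than `1 / (2 d)`.
3. Let `d ≥ 1`. Either the kernel dimensions over `R[G]` of all the groups `G` with the least common
   multiple `d` are together exactly the nonnegative multiples of `1 / D`, for some `D ≥ 1` which is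
   divisible by `d`, or for one such group `G` they are dense in `[0, ∞)`.
4. If, for some `d ≥ 1`, there is no group `G` with the least common multiple `d` for which the kernel
   dimensions over `R[G]` are dense, then for every torsion-free group all kernel dimensions of
   matrices over the complex group ring are integers.
5. Let `d ≥ 1`. The following are equivalent: `d v` is an integer for all kernel dimensions `v` over
   `R[G]`, for all groups `G` with the least common multiple `d`; none of these dimensions is in
   `(0, 1 / d)`; for each such group `G`, the kernel dimensions over `R[G]` avoid some interval in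
   `[0, ∞)` of length greater than `1 / (2 d)`. -/
theorem result (R : Subring ℂ) :
    (∀ (G : Type) [Group G],
      (∃ D : ℕ, 0 < D ∧ (∀ H : Subgroup G, Finite H → Nat.card H ∣ D) ∧
        Dims R (Monoid.Coprod G (FreeGroup ℕ)) = Multiples D) ∨
      DenseSet (Dims R (Monoid.Coprod G (FreeGroup ℕ)))) ∧
    (∀ (G : Type) [Group G] (d : ℕ), IsLcm G d → List.TFAE [
      ∀ v ∈ Dims R (Monoid.Coprod G (FreeGroup ℕ)), ∃ z : ℤ, (d : ℝ) * v = z,
      ∀ v ∈ Dims R (Monoid.Coprod G (FreeGroup ℕ)), ¬ (0 < v ∧ v < 1 / d),
      ∃ a b : ℝ, 0 ≤ a ∧ 1 / (2 * (d : ℝ)) < b - a ∧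
        ∀ v ∈ Dims R (Monoid.Coprod G (FreeGroup ℕ)), ¬ (a < v ∧ v < b)]) ∧
    (∀ d : ℕ, 0 < d →
      (∃ D : ℕ, 0 < D ∧ d ∣ D ∧
        {v : ℝ | ∃ (G : Type) (_ : Group G), IsLcm G d ∧ v ∈ Dims R G} = Multiples D) ∨
      ∃ (G : Type) (_ : Group G), IsLcm G d ∧ DenseSet (Dims R G)) ∧
    (∀ d : ℕ, 0 < d → (∀ (G : Type) [Group G], IsLcm G d → ¬ DenseSet (Dims R G)) →
      ∀ (G : Type) [Group G], (∀ g : G, ∀ n : ℕ, 0 < n → g ^ n = 1 → g = 1) →
        ∀ (m n : ℕ) (A : Matrix (Fin m) (Fin n) (G →₀ ℂ)), ∃ z : ℤ, kerDim A = z) ∧
    (∀ d : ℕ, 0 < d → List.TFAE [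
      ∀ (G : Type) [Group G], IsLcm G d → ∀ v ∈ Dims R G, ∃ z : ℤ, (d : ℝ) * v = z,
      ∀ (G : Type) [Group G], IsLcm G d → ∀ v ∈ Dims R G, ¬ (0 < v ∧ v < 1 / d),
      ∀ (G : Type) [Group G], IsLcm G d → ∃ a b : ℝ, 0 ≤ a ∧ 1 / (2 * (d : ℝ)) < b - a ∧
        ∀ v ∈ Dims R G, ¬ (a < v ∧ v < b)]) := by
  refine ⟨?_, ?_, ?_, ?_, ?_⟩
  · intro G _
    rw [dims_eq]
    rcases (Pool.Agent.K3h37.UD.adm_inf R G).dich with ⟨D, hD, hV⟩ | h
    · exact Or.inl ⟨D, hD, fun H hH => Pool.Agent.K3h37.UD.card_dvd hD hV H hH, hV⟩
    · exact Or.inr h
  · intro G _ d hd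
    rw [dims_eq]
    exact Pool.Agent.K3h37.UD.single_gap R hd
  · intro d hd
    simp only [dims_eq]
    exact Pool.Agent.K3h37.UD.class_dich R hd
  · intro d hd h G _ hG m n A
    simp only [dims_eq] at h
    rcases Pool.Agent.K3h37.UD.class_dich R hd with ⟨D, hD, -, hV⟩ | ⟨Γ, _, hΓ, hden⟩
    · exact Pool.Agent.K3h37.UD.tf_of_discrete R hd hD hV.le (Pool.Agent.W656.VA.isLcm_one hG)
        (Pool.Agent.W656.VA.val_kerDim (R := ⊤) A fun _ _ _ => Subring.mem_top _)
    · exact absurd hden (h Γ hΓ)
  · intro d hd
    simp only [dims_eq]
    exact Pool.Agent.K3h37.UD.class_gap R hd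

end Pool.Agent.Results.MP_54e5d7_al.UniformDenominators
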